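import Pool.Agent.H15.G.R_seed8.Y55.Col.Ind
import Pool.Agent.H15.G.R_seed8.TH3.IR.Window
import Pool.Agent.H15.G.R_seed8.TH176.FB.Fat2
import Pool.Agent.H15.G.R_seed8.TH176.FB.J25

/-!
More conversions from particular points to `Emp` and `Ind`; many points outside a window of degrees.
-/

set_option autoImplicit false

namespace Pool.Agent.Y55.Col

open MvPolynomial Finset Pool.Agent.H938R2
open scoped LinearAlgebra.Projectivization
open Pool.Agent.H350R3.MG

/-- From particular points to `Ind`. -/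
theorem ind_of_point {n N d : ℕ} (w : Fin N → ℕ) (P : Fin N → Fin (n + 2) → ℂ)
    (hP2 : ∀ i, P i 0 ≠ 0)
    (hP1 : Module.finrank ℂ (forms (n + 2) d w P) +
      ∑ i, (w i + n).choose (n + 1) = (d + (n + 1)).choose (n + 1)) :
    Ind n (d + 1) ((univ : Finset (Fin N)).val.map w) := by
  have e1 : cnt n (d + 1) = (d + (n + 1)).choose (n + 1) := by
    unfold cnt
    congr 1
    omega
  have e2 : (((univ : Finset (Fin N)).val.map w).map (cnt n)).sum =
      ∑ i, (w i + n).choose (n + 1) := by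
    rw [Multiset.map_map]
    rfl
  refine ⟨Module.finrank ℂ (forms (n + 2) d w P), ?_, by rw [e1, e2, ← hP1, add_comm]⟩
  exact emp_of_finrank (E := n + 1) (D := d + 1) (s := Module.finrank ℂ (forms (n + 2) d w P))
    (J := Fin N) w (fun i (j : Fin (n + 1)) => (P i 0)⁻¹ * P i j.succ) (by
      have h3 : Vd (d + 1) w (fun i (j : Fin (n + 1)) => (P i 0)⁻¹ * P i j.succ) ≤
          Submodule.map (Elim.dehom n).toLinearMap (forms (n + 2) d w P) := by
        intro f hf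
        rw [mem_Vd] at hf
        exact ⟨hom d f, hom_mem _ P hP2 hf.1 hf.2, dehom_hom f⟩
      refine (Submodule.finrank_mono h3).trans ?_
      exact Submodule.finrank_map_le _ _)

/-- From particular points to `Emp`. -/
theorem emp_of_point {n N d : ℕ} (w : Fin N → ℕ) (P : Fin N → Fin (n + 2) → ℂ)
    (hP2 : ∀ i, P i 0 ≠ 0) (h : forms (n + 2) d w P = ⊥) :
    Emp (n + 1) (d + 1) ((univ : Finset (Fin N)).val.map w) :=
  ⟨Fin N, inferInstance, w, _, rfl, aff_of_forms w P hP2 h⟩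

lemma pforms_eq {r k d : ℕ} (m : Fin k → ℕ) (v : Fin k → Fin (r + 1) → ℂ) (hv : ∀ i, v i ≠ 0) :
    TH3.IR.pforms d m (fun i => Projectivization.mk ℂ (v i) (hv i)) = forms (r + 1) d m v := by
  unfold TH3.IR.pforms
  ext F
  rw [Submodule.mem_inf, Submodule.restrictScalars_mem, Submodule.mem_iInf,
    Pool.Agent.H938R2.mem_forms, mem_homogeneousSubmodule]
  have key : F.IsHomogeneous d → ∀ i,
      (F ∈ primeIdeal (Projectivization.mk ℂ (v i) (hv i)) ^ m i ↔
        Pool.Agent.H938R2.VanishesToOrder (m i) (v i) F) := by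
    intro hF i
    rw [primeIdeal_mk]
    exact Pool.Agent.TH176.FB.mem_pow_iff_vanishes (hv i) ((mem_homogeneousSubmodule _ _).2 hF)
  constructor
  · rintro ⟨h1, h2⟩
    exact ⟨h1, fun i => (key h1 i).1 (h2 i)⟩
  · rintro ⟨h1, h2⟩
    exact ⟨h1, fun i => (key h1 i).2 (h2 i)⟩

lemma forms_cons {E k : ℕ} (d : ℕ) (w : Fin k → ℕ) (P : Fin k → Fin (E + 1) → ℂ) :
    forms (E + 1 + 1) d w (fun i => Fin.cons 1 (P i)) = H932R5.Vd d w P := by
  have hv : ∀ i, (Fin.cons 1 (P i) : Fin (E + 1 + 1) → ℂ) ≠ 0 := by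
    intro i h0
    have := congrFun h0 0
    simp at this
  rw [← pforms_eq w _ hv]
  exact TH3.IR.pforms_cons d w P hv

/-- Many points of `ℙ ^ (E + 1)`. -/
theorem many {E k : ℕ} (hE : 1 ≤ E) (hk : 3 ^ (E + 1) ≤ k) (w : Fin k → ℕ) (d : ℕ) :
    ((k : ℝ) ^ ((((E + 1 : ℕ) : ℝ) - 1) / ((E + 1 : ℕ) : ℝ)) * d < ∑ i, (w i : ℝ) →
      Emp (E + 1) (d + 1) ((univ : Finset (Fin k)).val.map w)) ∧
    ((∀ i, (k : ℝ) ^ ((1 : ℝ) / ((E + 1 : ℕ) : ℝ)) * ((w i : ℝ) + (E + 1 : ℕ) - 1) +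
      ((E + 1 : ℕ) - 1) ≤ d) → Ind E (d + 1) ((univ : Finset (Fin k)).val.map w)) := by
  obtain ⟨F, hF, h⟩ := TH3.IR.window_of (E := E) hE hk w
    (fun m d hd => TH3.IR.main_indep (E + 1) k (by omega) hk m d hd)
  obtain ⟨y, hy⟩ : ∃ y : Fin k × Fin (E + 1) → ℂ, eval y F ≠ 0 := by
    by_contra hcon
    push Not at hcon
    exact hF (MvPolynomial.funext fun w => by rw [hcon w, map_zero])
  obtain ⟨h1, h2⟩ := h (fun i j => y (i, j)) hy d
  have h0 : ∀ i, (Fin.cons 1 (fun j => y (i, j)) : Fin (E + 1 + 1) → ℂ) 0 ≠ 0 := fun i => by simp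
  constructor
  · intro hd
    refine emp_of_point w (fun i => Fin.cons 1 (fun j => y (i, j))) h0 ?_
    rw [forms_cons]
    exact TH3.IR.vd_eq_bot (h1 hd)
  · intro hd
    refine ind_of_point w (fun i => Fin.cons 1 (fun j => y (i, j))) h0 ?_
    rw [forms_cons, add_comm]
    exact (h2 hd).finrank

theorem ind_zero (n D N : ℕ) : Ind n D (Multiset.replicate N 0) := by
  refine ⟨cnt n D, ?_, by simp [cnt]⟩
  have h2 := emp_of_finrank (E := n + 1) (D := D) (s := cnt n D)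
    (J := Fin N) (fun _ => 0)
    (fun _ _ => 0) (by
      refine (Submodule.finrank_mono (inf_le_left :
        Vd D _ _ ≤ restrictSupport ℂ {a : Fin (n + 1) →₀ ℕ | a.degree < D})).trans ?_
      rw [finrank_restrictSupport, ← card_B n D, B, Nat.card_coe_set_eq,
        Set.ncard_eq_toFinset_card _ (Finsupp.finite_of_degree_lt D)])
  rwa [Multiset.map_const', Finset.card_val, Finset.card_univ, Fintype.card_fin] at h2

/-! ### Space -/

/-- `t ^ 3` points of the same multiplicity. -/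
def C3 (t μ d : ℕ) : Prop :=
  t ≤ 5 ∨ ∀ c : ℕ, d = t * μ + c → c + 3 ≤ t → t ^ 3 < (t + c + 3).choose 3 →
    (c + 3).choose 3 ≤ μ

theorem small3 {t c : ℕ} (ht5 : t ≤ 5) (hc : c + 3 ≤ t) : (t + c + 3).choose 3 ≤ t ^ 3 := by
  have ht : 3 ≤ t := by omega
  have hc2 : c ≤ 2 := by omega
  interval_cases t <;> interval_cases c <;> first | omega | decide

theorem cube {t μ d : ℕ} (ht : 2 ≤ t) (hμ : 1 ≤ μ) (h : C3 t μ d) :
    ForGeneral 4 (t ^ 3) (fun p => Module.finrank ℂ (forms 4 d (fun _ => μ) p) =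
      (d + 3).choose 3 - t ^ 3 * (μ + 2).choose 3) := by
  refine Pool.Agent.TH176.FB.fat_space t μ d ht hμ ?_
  rcases h with h | h
  · intro c _ hct hlt
    have := small3 h hct
    omega
  · exact h

theorem cube_emp {t μ d : ℕ} (ht : 1 ≤ t) (h : C3 t μ d)
    (hd : (d + 3).choose 3 ≤ t ^ 3 * (μ + 2).choose 3) :
    Emp 3 (d + 1) (Multiset.replicate (t ^ 3) μ) := by
  have e0 : ∀ {μ d : ℕ}, ForGeneral 4 (t ^ 3) (fun p =>
      Module.finrank ℂ (forms 4 d (fun _ => μ) p) = 0) →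
      Emp 3 (d + 1) (Multiset.replicate (t ^ 3) μ) := by
    intro μ d h
    have h1 := emp_of_general (n := 2) (N := t ^ 3) (d := d) (fun _ => μ) h
    rwa [Multiset.map_const', Finset.card_val, Finset.card_univ, Fintype.card_fin] at h1
  rcases Nat.eq_or_lt_of_le ht with ht1 | ht2
  · subst ht1
    exact e0 (uniform_zero 2 1 μ d le_rfl (Or.inr (Or.inr (Or.inr (Or.inr
      (Or.inr (Or.inr ⟨by norm_num, by norm_num⟩)))))) hd)
  · have hμ : 1 ≤ μ := by
      by_contra hcon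
      have h1 : μ = 0 := by omega
      subst h1
      have h2 : (0 + 2).choose 3 = 0 := rfl
      rw [h2, mul_zero] at hd
      have := Nat.choose_pos (show 3 ≤ d + 3 by omega)
      omega
    refine e0 ((cube ht2 hμ h).mono fun p hp => ?_)
    rw [hp]
    omega

theorem cube_ind {t μ d : ℕ} (ht : 1 ≤ t) (h : C3 t μ d)
    (hd : t ^ 3 * (μ + 2).choose 3 ≤ (d + 3).choose 3) :
    Ind 2 (d + 1) (Multiset.replicate (t ^ 3) μ) := by
  rcases Nat.eq_zero_or_pos μ with hμ | hμ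
  · subst hμ
    exact ind_zero 2 (d + 1) (t ^ 3)
  rcases Nat.eq_or_lt_of_le ht with ht1 | ht2
  · subst ht1
    exact ind_powers 2 1 μ d le_rfl (Or.inr (Or.inr (Or.inr (Or.inr
      (Or.inr (Or.inr ⟨by norm_num, by norm_num⟩)))))) hd
  obtain ⟨P, hP1, hP2⟩ := ((cube ht2 hμ h).and forGeneral_zero_coord).exists
  have h1 := ind_of_point (n := 2) (N := t ^ 3) (d := d) (fun _ => μ) P hP2 (by
    rw [hP1, Finset.sum_const, Finset.card_univ, Fintype.card_fin, smul_eq_mul]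
    show (d + 3).choose 3 - t ^ 3 * (μ + 2).choose 3 + t ^ 3 * (μ + 2).choose 3 = (d + 3).choose 3
    omega)
  rwa [Multiset.map_const', Finset.card_val, Finset.card_univ, Fintype.card_fin] at h1

theorem many3_emp {d : ℕ} {M : Multiset ℕ} (hM : 27 ≤ M.card)
    (h : M.card ^ 2 * d ^ 3 < M.sum ^ 3) : Emp 3 (d + 1) M := by
  obtain ⟨k, m, rfl⟩ := exists_family M
  have hc : ((univ : Finset (Fin k)).val.map m).card = k := by simp
  have hs : ((univ : Finset (Fin k)).val.map m).sum = ∑ i, m i := rfl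
  rw [hc] at hM h
  rw [hs] at h
  refine (many (E := 2) (by norm_num) (by norm_num; exact hM) m d).1 ?_
  set κ : ℝ := (k : ℝ) ^ ((((2 + 1 : ℕ) : ℝ) - 1) / ((2 + 1 : ℕ) : ℝ)) with hκ
  have hk0 : (0 : ℝ) ≤ k := Nat.cast_nonneg _
  have hκ3 : κ ^ 3 = (k : ℝ) ^ 2 := by
    rw [hκ, ← Real.rpow_natCast, ← Real.rpow_mul hk0, ← Real.rpow_natCast]
    congr 1
    norm_num
  have h1 : (κ * d) ^ 3 < (∑ i, (m i : ℝ)) ^ 3 := by
    rw [mul_pow, hκ3]
    have h2 : ((k ^ 2 * d ^ 3 : ℕ) : ℝ) < (((∑ i, m i) ^ 3 : ℕ) : ℝ) := by exact_mod_cast h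
    push_cast at h2
    exact h2
  exact lt_of_pow_lt_pow_left₀ 3 (Finset.sum_nonneg fun i _ => Nat.cast_nonneg _) h1

theorem many3_ind {d : ℕ} {M : Multiset ℕ} (hM : 27 ≤ M.card)
    (h : ∀ a ∈ M, M.card * (a + 2) ^ 3 ≤ (d - 2) ^ 3) : Ind 2 (d + 1) M := by
  obtain ⟨k, m, rfl⟩ := exists_family M
  have hc : ((univ : Finset (Fin k)).val.map m).card = k := by simp
  rw [hc] at hM h
  refine (many (E := 2) (by norm_num) (by norm_num; exact hM) m d).2 fun i => ?_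
  have h1 := h (m i) (Multiset.mem_map_of_mem m (mem_univ_val i))
  have hd : 2 ≤ d := by
    by_contra hcon
    have h2 : d - 2 = 0 := by omega
    rw [h2] at h1
    have h3 : 0 < k * (m i + 2) ^ 3 := Nat.mul_pos (by omega) (Nat.pow_pos (by omega))
    omega
  set ρ : ℝ := (k : ℝ) ^ ((1 : ℝ) / ((2 + 1 : ℕ) : ℝ)) with hρ
  have hk0 : (0 : ℝ) ≤ k := Nat.cast_nonneg _
  have hρ3 : ρ ^ 3 = k := by
    rw [hρ, ← Real.rpow_natCast, ← Real.rpow_mul hk0]
    norm_num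
  have h2 : (ρ * ((m i : ℝ) + 2)) ^ 3 ≤ ((d - 2 : ℕ) : ℝ) ^ 3 := by
    rw [mul_pow, hρ3]
    have h3 : ((k * (m i + 2) ^ 3 : ℕ) : ℝ) ≤ (((d - 2) ^ 3 : ℕ) : ℝ) := by exact_mod_cast h1
    push_cast at h3 ⊢
    exact h3
  have h3 := le_of_pow_le_pow_left₀ (by norm_num) (Nat.cast_nonneg _) h2
  rw [Nat.cast_sub hd] at h3
  push_cast at h3 ⊢
  have e : (m i : ℝ) + 3 - 1 = m i + 2 := by ring
  rw [e]
  linarith

end Pool.Agent.Y55.Col
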