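import Pool.Agent.H15.G.R_seed8.Y55.Col.Conv

/-!
Perfect power numbers of points of the same multiplicity, and blocks.
-/

set_option autoImplicit false

namespace Pool.Agent.Y55.Col

open MvPolynomial Finset Pool.Agent.H938R2

/-- The numbers of points and dimensions without exceptions. -/
lemma special (n t c : ℕ) (hs : (t = 2 ∧ (n ≤ 5 ∨ n = 7)) ∨ (t = 3 ∧ n ≤ 4) ∨ (t ≤ 5 ∧ n ≤ 3))
    (ht : 2 ≤ t) (hn : 1 ≤ n) (hc : 2 * c + n + 1 < (n - 1) * t) :
    (t + c + n).choose n ≤ t ^ n := by
  have h7 : n ≤ 7 := by omega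
  have h5 : t ≤ 5 := by omega
  interval_cases t <;> interval_cases n <;> first | omega | skip
  all_goals
    have hc3 : c ≤ 2 := by omega
    interval_cases c <;> first | omega | decide

/-- The cases. -/
def Cs (n t m d : ℕ) : Prop :=
  (n - 1) * t ^ n ≤ m ∨ d < t * m ∨ 2 * t * m + (n - 1) * t ≤ 2 * d + n + 1 ∨
    (d + t + n - t * m).choose n ≤ t ^ n ∨
    ((t = 2 ∧ (n ≤ 5 ∨ n = 7)) ∨ (t = 3 ∧ n ≤ 4) ∨ (t ≤ 5 ∧ n ≤ 3))

theorem uniform (k t m d : ℕ) (ht : 2 ≤ t) (hm : 1 ≤ m) (h : Cs (k + 1) t m d) :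
    ForGeneral (k + 2) (t ^ (k + 1)) (fun p =>
      Module.finrank ℂ (forms (k + 2) d (fun _ => m) p) =
        (d + (k + 1)).choose (k + 1) - t ^ (k + 1) * (m + k).choose (k + 1)) := by
  unfold Cs at h
  have h : (k + 1 - 1) * t ^ (k + 1) ≤ m ∨ d < t * m ∨
      2 * t * m + (k + 1 - 1) * t ≤ 2 * d + (k + 1) + 1 ∨
      (d + t + (k + 1) - t * m).choose (k + 1) ≤ t ^ (k + 1) := by
    rcases h with h | h | h | h | h
    · exact Or.inl h
    · exact Or.inr (Or.inl h)
    · exact Or.inr (Or.inr (Or.inl h))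
    · exact Or.inr (Or.inr (Or.inr h))
    · rcases lt_or_ge d (t * m) with h1 | h1
      · exact Or.inr (Or.inl h1)
      · obtain ⟨c, hc⟩ : ∃ c, d = t * m + c := ⟨d - t * m, by omega⟩
        by_cases h2 : 2 * c + (k + 1) + 1 < (k + 1 - 1) * t
        · refine Or.inr (Or.inr (Or.inr ?_))
          have e : d + t + (k + 1) - t * m = t + c + (k + 1) := by omega
          rw [e]
          exact special (k + 1) t c h ht (by omega) h2
        · refine Or.inr (Or.inr (Or.inl ?_))
          have e : 2 * t * m = 2 * (t * m) := by ring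
          rw [e, hc]
          omega
  rw [Nat.add_sub_cancel] at h
  rcases lt_or_ge d (t * m) with h1 | h1
  · exact Pool.Agent.TH176.FB.fat_low k t m d (by omega) h1
  rcases h with h | h | h | h
  · exact Pool.Agent.TH176.FB.fat_all k t m d ht hm h
  · omega
  · exact Pool.Agent.TH176.FB.fat_indep k t m d ht (by omega)
  · obtain ⟨c, hc⟩ : ∃ c, d = t * m + c := ⟨d - t * m, by omega⟩
    have e1 : d + t + (k + 1) - t * m = t + c + k + 1 := by omega
    rw [e1] at h
    have h4 := Pool.Agent.TH176.FB.fat_simple k t m (t + c) (by omega) hm h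
    have h5 : t + c + t * (m - 1) = d := by
      obtain ⟨m', rfl⟩ : ∃ m', m = m' + 1 := ⟨m - 1, by omega⟩
      rw [hc, Nat.add_sub_cancel]
      ring
    rw [h5] at h4
    exact h4

/-- Emptiness, also for one point. -/
theorem uniform_zero (k t m d : ℕ) (ht : 1 ≤ t) (h : Cs (k + 1) t m d)
    (hd : (d + (k + 1)).choose (k + 1) ≤ t ^ (k + 1) * (m + k).choose (k + 1)) :
    ForGeneral (k + 2) (t ^ (k + 1)) (fun p =>
      Module.finrank ℂ (forms (k + 2) d (fun _ => m) p) = 0) := by
  have hm : 1 ≤ m := by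
    by_contra hcon
    have h1 : m = 0 := by omega
    subst h1
    rw [zero_add, Nat.choose_succ_self, mul_zero] at hd
    have := Nat.choose_pos (show k + 1 ≤ d + (k + 1) by omega)
    omega
  rcases Nat.eq_or_lt_of_le ht with ht1 | ht2
  · subst ht1
    have hdm : d < m := by
      by_contra hcon
      rw [one_pow, one_mul] at hd
      have h1 : (m + k).choose (k + 1) < (m + k + 1).choose (k + 1) := by
        rw [Nat.choose_succ_succ' (m + k) k]
        have := Nat.choose_pos (show k ≤ m + k by omega)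
        omega
      have h2 : (m + k + 1).choose (k + 1) ≤ (d + (k + 1)).choose (k + 1) :=
        Nat.choose_le_choose _ (by omega)
      omega
    refine (Pool.Agent.TH176.FB.fat_low k 1 m d le_rfl (by omega)).mono fun p hp => ?_
    rw [hp]
    omega
  · refine (uniform k t m d ht2 hm h).mono fun p hp => ?_
    rw [hp]
    omega

/-- From general points to `Emp`. -/
theorem emp_of_general {n N d : ℕ} (w : Fin N → ℕ)
    (h : ForGeneral (n + 2) N (fun p => Module.finrank ℂ (forms (n + 2) d w p) = 0)) :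
    Emp (n + 1) (d + 1) ((univ : Finset (Fin N)).val.map w) := by
  obtain ⟨P, hP1, hP2⟩ := (h.and forGeneral_zero_coord).exists
  exact ⟨Fin N, inferInstance, w, _, rfl, aff_of_forms w P hP2 ((finrank_zero_iff _ _).1 hP1)⟩

/-- From `Emp` to general points. -/
theorem general_of_emp {n k d : ℕ} {m : Fin k → ℕ}
    (h : Emp (n + 1) (d + 1) ((univ : Finset (Fin k)).val.map m)) :
    ForGeneral (n + 2) k (fun p => forms (n + 2) d m p = ⊥) := by
  obtain ⟨x, hx⟩ := h.fin
  refine (forms_semicontinuous (n := n + 2) (d := d) (m := m) (fun i => Fin.cons 1 (x i)) 0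
    (by rw [forms_of_aff hx, finrank_bot])).mono fun p hp =>
      (finrank_zero_iff _ _).1 (Nat.le_zero.1 hp)

end Pool.Agent.Y55.Col
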